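import Mathlib

set_option autoImplicit false

namespace Pool.Agent.H55.Gilbert

open Matrix

/-- The Gilbert graph `G_0`: vertices are the vectors of `F_q^n`, and `u ~ u'` iff
`1 ≤ w(u - u') ≤ d - 1`, where `w` is the Hamming weight. -/
def gilbert (q n d : ℕ) : SimpleGraph (Fin n → ZMod q) where
  Adj u u' := 1 ≤ hammingNorm (u - u') ∧ hammingNorm (u - u') ≤ d - 1
  symm := ⟨fun u u' h => by
    have e : hammingNorm (u' - u) = hammingNorm (u - u') := by
      rw [← neg_sub u u']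
      simp only [hammingNorm, Pi.neg_apply, ne_eq, neg_eq_zero]
    rw [e]; exact h⟩
  loopless := ⟨fun u h => by simp at h⟩

/-- The induced subgraph `G[V]` of the Gilbert graph on a subspace `V`. -/
def sub (q n d : ℕ) (V : Submodule (ZMod q) (Fin n → ZMod q)) : SimpleGraph V :=
  (gilbert q n d).induce (V : Set (Fin n → ZMod q))

open Classical in
/-- `λ_V(v) = ∑ z^⟨u,v⟩`, the sum over all `u ∈ V` with `1 ≤ w(u) ≤ d - 1`, where
`z = exp (2 π i / q)`. -/
noncomputable def lam (q n d : ℕ) [NeZero q] (V : Submodule (ZMod q) (Fin n → ZMod q))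
    (v : Fin n → ZMod q) : ℂ :=
  ∑ u : Fin n → ZMod q, if u ∈ V ∧ 1 ≤ hammingNorm u ∧ hammingNorm u ≤ d - 1 then
    Complex.exp (2 * Real.pi * Complex.I / q) ^ (u ⬝ᵥ v).val else 0

open Classical in
/-- `λ_V(v)` is the least eigenvalue of (the adjacency matrix of) the graph `G[V]`. -/
def IsMin (q n d : ℕ) [NeZero q] (V : Submodule (ZMod q) (Fin n → ZMod q))
    (v : Fin n → ZMod q) : Prop :=
  ∃ μ : ℝ, IsLeast (spectrum ℝ ((sub q n d V).adjMatrix ℝ)) μ ∧ lam q n d V v = (μ : ℂ)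

/-- The integer `∑ v_i q^(n-i)` by which the vectors are ordered. -/
def key (q n : ℕ) (v : Fin n → ZMod q) : ℕ :=
  ∑ i : Fin n, (v i).val * q ^ (n - 1 - (i : ℕ))

/-- The hyperplane section `{u ∈ V : ⟨u,v⟩ = 0}`. -/
def section' (q n : ℕ) (V : Submodule (ZMod q) (Fin n → ZMod q)) (v : Fin n → ZMod q) :
    Submodule (ZMod q) (Fin n → ZMod q) where
  carrier := {u | u ∈ V ∧ u ⬝ᵥ v = 0}
  add_mem' := fun ha hb => ⟨V.add_mem ha.1 hb.1, by rw [add_dotProduct, ha.2, hb.2, add_zero]⟩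
  zero_mem' := ⟨V.zero_mem, zero_dotProduct v⟩
  smul_mem' := fun c _ ha => ⟨V.smul_mem c ha.1, by rw [smul_dotProduct, ha.2, smul_zero]⟩

/-- `IsStage q n d t V` says that `V = V_t`: we have `V_0 = F_q^n`, and, as long as `G_t` has
an edge, `V_{t+1} = {u ∈ V_t : ⟨u, v^(t)⟩ = 0}` with `v^(t)` the smallest vector for which
`λ_{V_t}(v)` is the least eigenvalue of `G_t`. -/
inductive IsStage (q n d : ℕ) [NeZero q] : ℕ → Submodule (ZMod q) (Fin n → ZMod q) → Prop
  | zero : IsStage q n d 0 ⊤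
  | succ (t : ℕ) (V : Submodule (ZMod q) (Fin n → ZMod q)) (v : Fin n → ZMod q) :
      IsStage q n d t V → (∃ a b, (sub q n d V).Adj a b) → IsMin q n d V v →
      (∀ v', IsMin q n d V v' → key q n v ≤ key q n v') →
      IsStage q n d (t + 1) (section' q n V v)

end Pool.Agent.H55.Gilbert
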