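import Mathlib
import Pool.Agent.H55.Gilbert.Defs

set_option autoImplicit false

namespace Pool.Agent.H55.Gilbert

open Matrix Polynomial

theorem exp_pow_val (q : ℕ) [NeZero q] (a : ZMod q) :
    Complex.exp (2 * Real.pi * Complex.I / q) ^ a.val = ZMod.stdAddChar a := by
  rw [ZMod.stdAddChar_apply, ZMod.toCircle_apply, ← Complex.exp_nat_mul]
  congr 1
  ring

abbrev E : Type := Fin 5 → ZMod 3

/-- the character -/
noncomputable abbrev χ : AddChar (ZMod 3) ℂ := ZMod.stdAddChar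

theorem chi_dot (u v : E) : χ (u ⬝ᵥ v) = ∏ i, χ (u i * v i) := by
  rw [dotProduct]
  simp only [Fin.sum_univ_succ, Fin.prod_univ_succ, AddChar.map_add_eq_mul, Fin.sum_univ_zero,
    Fin.prod_univ_zero, AddChar.map_zero_eq_one]

theorem chi_sum (b : ZMod 3) : ∑ a : ZMod 3, χ (a * b) = if b = 0 then 3 else 0 := by
  rw [AddChar.sum_mulShift b (ZMod.isPrimitive_stdAddChar 3)]
  simp [ZMod.card]

/-- orthogonality -/
theorem chi_orth (u : E) : ∑ v : E, χ (u ⬝ᵥ v) = if u = 0 then (3 : ℂ) ^ 5 else 0 := by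
  have h1 : ∑ v : E, χ (u ⬝ᵥ v) = ∏ i : Fin 5, ∑ a : ZMod 3, χ (a * u i) := by
    rw [Finset.prod_univ_sum, Fintype.piFinset_univ]
    refine Finset.sum_congr rfl fun v _ => ?_
    rw [chi_dot]
    refine Finset.prod_congr rfl fun i _ => ?_
    rw [mul_comm]
  rw [h1]
  simp only [chi_sum]
  by_cases hu : u = 0
  · subst hu; simp
  · rw [if_neg hu]
    obtain ⟨i, hi⟩ : ∃ i, u i ≠ 0 := by
      by_contra h
      push Not at h
      exact hu (funext h)
    exact Finset.prod_eq_zero (Finset.mem_univ i) (by rw [if_neg hi])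

/-- weight enumerator -/
theorem poly_identity (v : E) :
    ∑ u : E, (X : ℂ[X]) ^ hammingNorm u * C (χ (u ⬝ᵥ v)) =
      (1 + 2 * X) ^ (5 - hammingNorm v) * (1 - X) ^ hammingNorm v := by
  have h1 : ∀ u : E, (X : ℂ[X]) ^ hammingNorm u * C (χ (u ⬝ᵥ v)) =
      ∏ i, ((if u i = 0 then 1 else X) * C (χ (u i * v i))) := by
    intro u
    rw [Finset.prod_mul_distrib, chi_dot, map_prod]
    congr 1
    rw [Finset.prod_ite, Finset.prod_const_one, one_mul, Finset.prod_const]
    rfl
  have h2 : ∀ i, ∑ a : ZMod 3, (if a = 0 then (1 : ℂ[X]) else X) * C (χ (a * v i)) =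
      if v i = 0 then 1 + 2 * X else 1 - X := by
    intro i
    have h3 : ∀ a : ZMod 3, (if a = 0 then (1 : ℂ[X]) else X) * C (χ (a * v i)) =
        X * C (χ (a * v i)) + (if a = 0 then (1 - X) * C (χ (a * v i)) else 0) := by
      intro a
      split_ifs <;> ring
    rw [Finset.sum_congr rfl fun a _ => h3 a, Finset.sum_add_distrib, ← Finset.mul_sum,
      ← map_sum, chi_sum, Finset.sum_ite_eq' Finset.univ (0 : ZMod 3)]
    simp only [Finset.mem_univ, if_true, zero_mul, AddChar.map_zero_eq_one, map_one, mul_one]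
    split_ifs with h
    · rw [show (C (3 : ℂ) : ℂ[X]) = 3 by simp [← C_ofNat]]; ring
    · simp
  rw [Finset.sum_congr rfl fun u _ => h1 u]
  have h4 := Finset.prod_univ_sum (fun _ : Fin 5 => (Finset.univ : Finset (ZMod 3)))
    (fun i a => (if a = 0 then (1 : ℂ[X]) else X) * C (χ (a * v i)))
  rw [Fintype.piFinset_univ] at h4
  rw [← h4, Finset.prod_congr rfl fun i _ => h2 i, Finset.prod_ite, Finset.prod_const,
    Finset.prod_const]
  congr 2
  have h5 := Finset.card_filter_add_card_filter_not (s := (Finset.univ : Finset (Fin 5)))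
    (fun i => v i = 0)
  rw [Finset.card_univ, Fintype.card_fin] at h5
  have h6 : hammingNorm v = (Finset.univ.filter fun i => ¬ v i = 0).card := rfl
  omega

/-- The value of the eigenvalue as a function of the weight. -/
def val : ℕ → ℤ
  | 0 => 50
  | 1 => 23
  | 2 => 5
  | 3 => -4
  | 4 => -4
  | _ => 5

theorem coeff_sum (v : E) (k : ℕ) :
    ∑ u : E, (if hammingNorm u = k then χ (u ⬝ᵥ v) else 0) =
      ((1 + 2 * X : ℂ[X]) ^ (5 - hammingNorm v) * (1 - X) ^ hammingNorm v).coeff k := by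
  rw [← poly_identity, finsetSum_coeff]
  refine Finset.sum_congr rfl fun u _ => ?_
  rw [coeff_mul_C, coeff_X_pow]
  by_cases h : hammingNorm u = k
  · rw [if_pos h, if_pos h.symm, one_mul]
  · rw [if_neg h, if_neg (fun h' => h h'.symm), zero_mul]

theorem weight_le (v : E) : hammingNorm v ≤ 5 := by
  refine (Finset.card_filter_le _ _).trans ?_
  simp

theorem coeff12 (w : ℕ) (hw : w ≤ 5) :
    ((1 + 2 * X : ℂ[X]) ^ (5 - w) * (1 - X) ^ w).coeff 1 +
      ((1 + 2 * X : ℂ[X]) ^ (5 - w) * (1 - X) ^ w).coeff 2 = (val w : ℂ) := by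
  have key : ∀ (P R : ℂ[X]) (a b : ℂ), P = 1 + C a * X + C b * X ^ 2 + X ^ 3 * R →
      P.coeff 1 + P.coeff 2 = a + b := by
    intro P R a b h
    have h1 : (X ^ 3 * R).coeff 1 = 0 := by rw [coeff_X_pow_mul']; simp
    have h2 : (X ^ 3 * R).coeff 2 = 0 := by rw [coeff_X_pow_mul']; simp
    rw [h]
    simp [coeff_one, coeff_X_pow, h1, h2]
  interval_cases w
  · rw [key _ (80 + 80 * X + 32 * X ^ 2) 10 40 (by
      simp only [map_ofNat]; ring)]
    norm_num [val]
  · rw [key _ (8 - 16 * X - 16 * X ^ 2) 7 16 (by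
      simp only [map_ofNat]; ring)]
    norm_num [val]
  · rw [key _ (-10 - 4 * X + 8 * X ^ 2) 4 1 (by
      simp only [map_ofNat, map_one]; ring)]
    norm_num [val]
  · rw [key _ (-1 + 8 * X - 4 * X ^ 2) 1 (-5) (by
      simp only [map_neg, map_ofNat, map_one]; ring)]
    norm_num [val]
  · rw [key _ (8 - 7 * X + 2 * X ^ 2) (-2) (-2) (by
      simp only [map_neg, map_ofNat]; ring)]
    norm_num [val]
  · rw [key _ (-10 + 5 * X - X ^ 2) (-5) 10 (by
      simp only [map_neg, map_ofNat]; ring)]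
    norm_num [val]

/-- The whole spectrum at `t = 0`. -/
theorem lam_top (v : E) : lam 3 5 3 ⊤ v = ((val (hammingNorm v) : ℝ) : ℂ) := by
  have h := coeff12 _ (weight_le v)
  rw [← coeff_sum, ← coeff_sum, ← Finset.sum_add_distrib] at h
  rw [show (((val (hammingNorm v) : ℤ) : ℝ) : ℂ) = ((val (hammingNorm v) : ℤ) : ℂ) by push_cast; rfl,
    ← h, lam]
  refine Finset.sum_congr rfl fun u _ => ?_
  rw [exp_pow_val]
  have h1 : (u ∈ (⊤ : Submodule (ZMod 3) E) ∧ 1 ≤ hammingNorm u ∧ hammingNorm u ≤ 3 - 1) ↔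
      (hammingNorm u = 1 ∨ hammingNorm u = 2) := by
    simp only [Submodule.mem_top, true_and]
    omega
  by_cases h2 : hammingNorm u = 1
  · rw [if_pos (h1.mpr (Or.inl h2)), if_pos h2, if_neg (by omega), add_zero]
  · by_cases h3 : hammingNorm u = 2
    · rw [if_pos (h1.mpr (Or.inr h3)), if_neg h2, if_pos h3, zero_add]
    · rw [if_neg (by rw [h1]; omega), if_neg h2, if_neg h3, add_zero]

theorem val_ge (w : ℕ) : -4 ≤ val w := by
  unfold val
  split <;> norm_num

end Pool.Agent.H55.Gilbert
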