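import Mathlib
import Pool.Agent.H55.Gilbert.Chars

set_option autoImplicit false

namespace Pool.Agent.H55.Gilbert

open Matrix

/-- the adjacency of `G_0` -/
def adj (x y : E) : Prop := 1 ≤ hammingNorm (x - y) ∧ hammingNorm (x - y) ≤ 2

theorem lam_top' (v : E) : lam 3 5 3 ⊤ v =
    ∑ s : E, if 1 ≤ hammingNorm s ∧ hammingNorm s ≤ 2 then χ (s ⬝ᵥ v) else 0 := by
  rw [lam]
  refine Finset.sum_congr rfl fun u _ => ?_
  rw [exp_pow_val]
  simp only [Submodule.mem_top, true_and, Nat.add_one_sub_one]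

theorem hammingNorm_neg' (s : E) : hammingNorm (-s) = hammingNorm s := by
  simp only [hammingNorm, Pi.neg_apply, ne_eq, neg_eq_zero]

open Classical in
/-- Characters are eigenvectors. -/
theorem char_eigen (v x : E) :
    ∑ y : E, (if adj x y then χ (y ⬝ᵥ v) else 0) = lam 3 5 3 ⊤ v * χ (x ⬝ᵥ v) := by
  rw [lam_top', Finset.sum_mul, ← Equiv.sum_comp (Equiv.addLeft x)]
  refine Finset.sum_congr rfl fun s _ => ?_
  have h1 : x - (x + s) = -s := by abel
  have h2 : adj x (Equiv.addLeft x s) ↔ 1 ≤ hammingNorm s ∧ hammingNorm s ≤ 2 := by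
    rw [Equiv.coe_addLeft, adj, h1, hammingNorm_neg']
  by_cases h : 1 ≤ hammingNorm s ∧ hammingNorm s ≤ 2
  · rw [if_pos h, if_pos (h2.mpr h), Equiv.coe_addLeft, add_dotProduct, AddChar.map_add_eq_mul,
      mul_comm]
  · rw [if_neg h, if_neg (fun h' => h (h2.mp h')), zero_mul]

theorem adj_symm (x y : E) : adj x y ↔ adj y x := by
  unfold adj
  rw [← neg_sub y x, hammingNorm_neg']

abbrev T : Type := ↥(⊤ : Submodule (ZMod 3) E)

/-- the identification of the vertex sets -/
def te : E ≃ T := (Submodule.topEquiv (R := ZMod 3) (M := E)).symm.toEquiv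

theorem te_coe (x : E) : ((te x : T) : E) = x := rfl

theorem te_symm_coe (x : T) : te.symm x = (x : E) := rfl

open Classical in
theorem mulVec_eq (f : T → ℝ) (x : T) :
    ((sub 3 5 3 ⊤).adjMatrix ℝ *ᵥ f) x = ∑ y : E, if adj (x : E) y then f (te y) else 0 := by
  rw [mulVec, dotProduct, ← Equiv.sum_comp te]
  refine Finset.sum_congr rfl fun y _ => ?_
  rw [SimpleGraph.adjMatrix_apply]
  have h : (sub 3 5 3 ⊤).Adj x (te y) ↔ adj (x : E) y := Iff.rfl
  by_cases h' : adj (x : E) y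
  · rw [if_pos (h.mpr h'), if_pos h', one_mul]
  · rw [if_neg (fun h'' => h' (h.mp h'')), if_neg h', zero_mul]

open Classical in
/-- Every eigenvalue is `λ(v)` for some `v`. -/
theorem eigen_is_lam (μ : ℝ) (f : T → ℝ) (hf : f ≠ 0)
    (hμ : (sub 3 5 3 ⊤).adjMatrix ℝ *ᵥ f = μ • f) : ∃ v : E, lam 3 5 3 ⊤ v = (μ : ℂ) := by
  by_contra hcon
  push Not at hcon
  let F : E → ℂ := fun v => ∑ x : E, (f (te x) : ℂ) * χ (x ⬝ᵥ v)
  have hF : ∀ v, (μ : ℂ) * F v = lam 3 5 3 ⊤ v * F v := by
    intro v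
    have h1 : ∀ x : E, (μ : ℂ) * (f (te x) : ℂ) =
        ∑ y : E, if adj x y then (f (te y) : ℂ) else 0 := by
      intro x
      have h2 := congrFun hμ (te x)
      rw [mulVec_eq, te_coe, Pi.smul_apply, smul_eq_mul] at h2
      rw [← Complex.ofReal_mul, ← h2]
      push_cast
      refine Finset.sum_congr rfl fun y _ => ?_
      split_ifs <;> rfl
    calc (μ : ℂ) * F v = ∑ x : E, ((μ : ℂ) * (f (te x) : ℂ)) * χ (x ⬝ᵥ v) := by
          simp only [F, Finset.mul_sum, mul_assoc]
      _ = ∑ x : E, ∑ y : E, (if adj x y then (f (te y) : ℂ) * χ (x ⬝ᵥ v) else 0) := by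
          refine Finset.sum_congr rfl fun x _ => ?_
          rw [h1, Finset.sum_mul]
          refine Finset.sum_congr rfl fun y _ => ?_
          split_ifs <;> simp
      _ = ∑ y : E, ∑ x : E, (if adj x y then (f (te y) : ℂ) * χ (x ⬝ᵥ v) else 0) :=
          Finset.sum_comm
      _ = ∑ y : E, (f (te y) : ℂ) * (lam 3 5 3 ⊤ v * χ (y ⬝ᵥ v)) := by
          refine Finset.sum_congr rfl fun y _ => ?_
          rw [← char_eigen, Finset.mul_sum]
          refine Finset.sum_congr rfl fun x _ => ?_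
          by_cases h : adj x y
          · rw [if_pos h, if_pos ((adj_symm _ _).mp h)]
          · rw [if_neg h, if_neg (fun h' => h ((adj_symm _ _).mp h')), mul_zero]
      _ = lam 3 5 3 ⊤ v * F v := by
          simp only [F, Finset.mul_sum]
          refine Finset.sum_congr rfl fun y _ => ?_
          ring
  have hF0 : ∀ v, F v = 0 := by
    intro v
    by_contra h
    exact hcon v (mul_right_cancel₀ h (hF v)).symm
  apply hf
  funext x0
  have h1 : ∑ v : E, F v * χ ((-(x0 : E)) ⬝ᵥ v) = (f x0 : ℂ) * 3 ^ 5 := by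
    have h2 : ∀ v : E, F v * χ ((-(x0 : E)) ⬝ᵥ v) =
        ∑ x : E, (f (te x) : ℂ) * χ ((x - (x0 : E)) ⬝ᵥ v) := by
      intro v
      simp only [F, Finset.sum_mul]
      refine Finset.sum_congr rfl fun x _ => ?_
      rw [sub_eq_add_neg, add_dotProduct, AddChar.map_add_eq_mul, mul_assoc]
    simp only [h2]
    rw [Finset.sum_comm]
    simp only [← Finset.mul_sum, chi_orth]
    rw [Finset.sum_eq_single (x0 : E)]
    · rw [if_pos (sub_self _)]
      rfl
    · intro b _ hb
      rw [if_neg (sub_ne_zero.mpr hb), mul_zero]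
    · intro h; exact absurd (Finset.mem_univ _) h
  simp only [hF0, zero_mul, Finset.sum_const_zero] at h1
  have h3 : (f x0 : ℂ) = 0 := by
    rcases mul_eq_zero.mp h1.symm with h | h
    · exact h
    · norm_num at h
  exact_mod_cast h3

open Classical in
theorem mem_spectrum_iff (μ : ℝ) : μ ∈ spectrum ℝ ((sub 3 5 3 ⊤).adjMatrix ℝ) ↔
    ∃ f : T → ℝ, f ≠ 0 ∧ (sub 3 5 3 ⊤).adjMatrix ℝ *ᵥ f = μ • f := by
  rw [← Matrix.spectrum_toLin', ← Module.End.hasEigenvalue_iff_mem_spectrum]
  constructor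
  · intro h
    obtain ⟨f, hf⟩ := h.exists_hasEigenvector
    refine ⟨f, hf.2, ?_⟩
    have := hf.apply_eq_smul
    rwa [Matrix.toLin'_apply] at this
  · rintro ⟨f, hf, h⟩
    refine Module.End.hasEigenvalue_of_hasEigenvector (x := f) ?_
    rw [Module.End.hasEigenvector_iff, Module.End.mem_eigenspace_iff]
    exact ⟨by rw [Matrix.toLin'_apply]; exact h, hf⟩

open Classical in
/-- `-4` is the least eigenvalue of `G_0` for `q = 3, n = 5, d = 3`. -/
theorem isLeast_neg_four : IsLeast (spectrum ℝ ((sub 3 5 3 ⊤).adjMatrix ℝ)) (-4) := by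
  constructor
  · rw [mem_spectrum_iff]
    let v : E := ![0, 0, 1, 1, 1]
    have hv : hammingNorm v = 3 := by decide +kernel
    refine ⟨fun x => (χ ((x : E) ⬝ᵥ v)).re, ?_, ?_⟩
    · intro h
      have := congrFun h 0
      simp at this
    · funext x
      rw [mulVec_eq, Pi.smul_apply, smul_eq_mul]
      have h1 := congrArg Complex.re (char_eigen v (x : E))
      rw [lam_top, hv, Complex.re_sum, Complex.re_ofReal_mul] at h1
      rw [show ((val 3 : ℤ) : ℝ) = -4 by norm_num [val]] at h1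
      rw [← h1]
      refine Finset.sum_congr rfl fun y _ => ?_
      rw [te_coe]
      split_ifs <;> simp
  · intro μ hμ
    rw [mem_spectrum_iff] at hμ
    obtain ⟨f, hf, h⟩ := hμ
    obtain ⟨v, hv⟩ := eigen_is_lam μ f hf h
    rw [lam_top] at hv
    have h1 : ((val (hammingNorm v) : ℤ) : ℝ) = μ := by exact_mod_cast hv
    rw [← h1]
    exact_mod_cast val_ge _

theorem isMin_of_weight (v : E) (hv : hammingNorm v = 3 ∨ hammingNorm v = 4) :
    IsMin 3 5 3 ⊤ v := by
  refine ⟨-4, isLeast_neg_four, ?_⟩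
  rw [lam_top]
  rcases hv with h | h <;> rw [h] <;> norm_num [val]

end Pool.Agent.H55.Gilbert
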